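import Pool.Agent.N352.PF.Cnt
import Pool.Agent.N568.PJ.D12
import Pool.Agent.N755.PQ.WK

/-!
# Weakly divisible discriminants over the ring of integers of a number field

Part WK of project PF of helper783 and helper352, written by helper935; a port of the version over the
integers by helper755 (`Pool/Agent/N755/PQ/WK.lean`).
-/

set_option autoImplicit false

open Polynomial

namespace Pool.Agent.N935.PF.WK

open Pool.Agent.N352.PJ (pol dis Dy D2)
open Pool.Agent.N568.PJ (pol_map dis_map Dy_map D2_map d1)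
open Pool.Agent.N755.PQ.WK (pol_natDegree der_natDegree der_coeff pol_upd root_struct)

/-- the identity of Bézout -/
lemma bez {A : Type} [CommRing A] {g : ℕ} (hg : 0 < 2 * g) (a : Fin (2 * g) → A) :
    ∃ U V : A → A[X], ∀ c : A,
    (C ((pol a).eval c) + (X - C (a ⟨0, hg⟩))) * U c +
      C ((derivative (pol a)).eval c) * V c = Dy a := by
  set b : Fin (2 * g) → A[X] := fun j => if (j : ℕ) = 0 then X else C (a j) with hb
  obtain ⟨p, q, -, -, hpq⟩ := exists_mul_add_mul_eq_C_resultant (pol b) (derivative (pol b))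
    (m := 2 * g + 1) (n := 2 * g) (pol_natDegree b) (der_natDegree b) (Or.inl (by omega))
  refine ⟨fun c => p.eval (C c), fun c => q.eval (C c), fun c => ?_⟩
  have h1 := congrArg (eval (C c)) hpq
  rw [eval_add, eval_mul, eval_mul, eval_C] at h1
  have h2 : pol b = (pol a).map C + C (X - C (a ⟨0, hg⟩)) := by
    rw [hb, pol_upd hg (fun j => C (a j)) X, pol_map]
  have h3 : eval (C c) (pol b) = C ((pol a).eval c) + (X - C (a ⟨0, hg⟩)) := by
    rw [h2, eval_add, eval_C, eval_map, eval₂_at_apply]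
  have h4 : eval (C c) (derivative (pol b)) = C ((derivative (pol a)).eval c) := by
    rw [h2, derivative_add, derivative_C, add_zero, derivative_map, eval_map, eval₂_at_apply]
  rw [h3, h4] at h1
  exact h1

lemma frob_fixed {k : Type} [Field k] [Fintype k] {K : Type} [Field K] [Algebra k K] (β : K)
    (h : β ^ Fintype.card k = β) : ∃ b : k, algebraMap k K b = β := by
  classical
  have hq : 1 < Fintype.card k := Fintype.one_lt_card
  have hne : (X ^ Fintype.card k - X : K[X]) ≠ 0 := FiniteField.X_pow_card_sub_X_ne_zero K hq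
  have hsub : (Finset.univ : Finset k).image (algebraMap k K) ⊆
      (X ^ Fintype.card k - X : K[X]).roots.toFinset := by
    intro x hx
    obtain ⟨b, -, rfl⟩ := Finset.mem_image.1 hx
    rw [Multiset.mem_toFinset, mem_roots hne, IsRoot.def, eval_sub, eval_pow, eval_X, ← map_pow,
      FiniteField.pow_card, sub_self]
  have hcard : (X ^ Fintype.card k - X : K[X]).roots.toFinset.card ≤
      ((Finset.univ : Finset k).image (algebraMap k K)).card := by
    rw [Finset.card_image_of_injective _ (algebraMap k K).injective, Finset.card_univ]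
    refine (Multiset.toFinset_card_le _).trans ((card_roots' _).trans ?_)
    rw [FiniteField.X_pow_card_sub_X_natDegree_eq K hq]
  have heq := Finset.eq_of_subset_of_card_le hsub hcard
  have hβ : β ∈ (X ^ Fintype.card k - X : K[X]).roots.toFinset := by
    rw [Multiset.mem_toFinset, mem_roots hne, IsRoot.def, eval_sub, eval_pow, eval_X, h, sub_self]
  rw [← heq] at hβ
  obtain ⟨b, -, hb⟩ := Finset.mem_image.1 hβ
  exact ⟨b, hb⟩

section

variable {A : Type} [CommRing A] (I : Ideal A) [hI : I.IsMaximal]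

/-- a common zero of `f` and `f'` modulo `I`, a simple zero of `f'` -/
lemma exists_c [Finite (A ⧸ I)] {g : ℕ} (hg : 0 < 2 * g) (hn : ((2 * g + 1 : ℕ) : A) ∉ I)
    (a : Fin (2 * g) → A) (h0 : (Dy a).eval (a ⟨0, hg⟩) ∈ I)
    (h1 : (derivative (Dy a)).eval (a ⟨0, hg⟩) ∉ I) :
    ∃ c : A, (pol a).eval c ∈ I ∧ (derivative (pol a)).eval c ∈ I ∧
      (derivative (derivative (pol a))).eval c ∉ I := by
  letI : Field (A ⧸ I) := Ideal.Quotient.field I
  letI : Fintype (A ⧸ I) := Fintype.ofFinite _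
  let K := AlgebraicClosure (A ⧸ I)
  let φ : A →+* K := (algebraMap (A ⧸ I) K).comp (Ideal.Quotient.mk I)
  have hφ : ∀ m : A, φ m = 0 ↔ m ∈ I := by
    intro m
    have : φ m = algebraMap (A ⧸ I) K (Ideal.Quotient.mk I m) := rfl
    rw [this, map_eq_zero, Ideal.Quotient.eq_zero_iff_mem]
  have hev : ∀ (h : A[X]) (c : A), (h.map φ).eval (φ c) = φ (h.eval c) := by
    intro h c
    rw [eval_map, eval₂_at_apply]
  have hn : (2 * g + 1 : K) ≠ 0 := by
    have h2 : φ ((2 * g + 1 : ℕ) : A) = (2 * g + 1 : K) := by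
      rw [map_natCast]; push_cast; rfl
    rw [← h2, Ne, hφ]
    exact hn
  obtain ⟨β, hβ0, hβ1, hβ2, hβu⟩ := root_struct hg hn (fun j => φ (a j))
    (by rw [← Dy_map, hev, hφ]; exact h0)
    (by rw [← Dy_map, derivative_map, hev, Ne, hφ]; exact h1)
  rw [← pol_map] at hβ0 hβ1 hβ2
  have hfr : ∀ h : A[X], (h.map φ).eval (β ^ Fintype.card (A ⧸ I)) =
      ((h.map φ).eval β) ^ Fintype.card (A ⧸ I) := by
    intro h
    have e1 : ∀ x : K, (h.map φ).eval x = aeval x (h.map (Ideal.Quotient.mk I)) := by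
      intro x
      have : h.map φ = (h.map (Ideal.Quotient.mk I)).map (algebraMap (A ⧸ I) K) := by
        rw [Polynomial.map_map]
      rw [this, eval_map_algebraMap]
    rw [e1, e1, ← map_pow, ← FiniteField.expand_card, expand_aeval]
  have hq0 : Fintype.card (A ⧸ I) ≠ 0 := Fintype.card_ne_zero
  have hβP : β ^ Fintype.card (A ⧸ I) = β := by
    apply hβu
    · rw [← pol_map, hfr, hβ0, zero_pow hq0]
    · rw [← pol_map, derivative_map, hfr, ← derivative_map, hβ1, zero_pow hq0]
  obtain ⟨b, hb⟩ := frob_fixed β hβP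
  obtain ⟨c, hc⟩ := Ideal.Quotient.mk_surjective b
  have hφc : φ c = β := by
    rw [← hb, ← hc]; rfl
  rw [← hφc] at hβ0 hβ1 hβ2
  rw [hev, hφ] at hβ0
  rw [derivative_map, hev, hφ] at hβ1
  rw [derivative_map, derivative_map, hev, Ne, hφ] at hβ2
  exact ⟨c, hβ0, hβ1, hβ2⟩

lemma inv_mod {x : A} (hx : x ∉ I) : ∃ u, ∃ i ∈ I, x * u + i = 1 := by
  obtain ⟨u, i, hi, h⟩ := hI.exists_inv hx
  exact ⟨u, i, hi, by rw [mul_comm x u]; exact h⟩

/-- Hensel's lemma modulo `I ^ 2` -/
lemma hensel (h : A[X]) (c : A) (h0 : h.eval c ∈ I)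
    (h1 : (derivative h).eval c ∉ I) :
    ∃ s ∈ I, h.eval (c + s) ∈ I ^ 2 := by
  obtain ⟨u, i, hi, huv⟩ := inv_mod I h1
  refine ⟨-(h.eval c * u), I.neg_mem (I.mul_mem_right _ h0), ?_⟩
  obtain ⟨k, hk⟩ := h.binomExpansion c (-(h.eval c * u))
  rw [hk]
  have e : h.eval c + (derivative h).eval c * -(h.eval c * u) + k * (-(h.eval c * u)) ^ 2 =
      h.eval c * i + k * (h.eval c * u) ^ 2 := by
    linear_combination (h.eval c) * (-1) * huv
  rw [e]
  refine (I ^ 2).add_mem ?_ ?_
  · rw [pow_two]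
    exact Ideal.mul_mem_mul h0 hi
  · exact Ideal.mul_mem_left _ _ (Ideal.pow_mem_pow (I.mul_mem_right _ h0) 2)

lemma cancel {x y : A} (h : x * y ∈ I ^ 2) (hy : y ∉ I) : x ∈ I ^ 2 := by
  obtain ⟨u, i, hi, huv⟩ := inv_mod I hy
  have e : x = (x * y) * (u * (1 + i)) + x * i ^ 2 := by
    linear_combination (-x * (1 + i)) * huv
  rw [e]
  exact (I ^ 2).add_mem (Ideal.mul_mem_right _ _ h) (Ideal.mul_mem_left _ _ (Ideal.pow_mem_pow hi 2))

theorem main [IsDomain A] [Finite (A ⧸ I)] {g : ℕ} (hg : 1 ≤ g) (hn : ((2 * g + 1 : ℕ) : A) ∉ I)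
    (a : Fin (2 * g) → A) (hdis : dis a ∈ I ^ 2) (hD2 : D2 a ∉ I) :
    ∃ c : A, (pol a).eval c ∈ I ^ 2 ∧ (derivative (pol a)).eval c ∈ I := by
  have hg2 : 0 < 2 * g := by omega
  obtain ⟨hdeg, -, hev⟩ := d1 g A a hg
  have hDa : (Dy a).eval (a ⟨0, hg2⟩) = dis a := by
    rw [hev]
    congr 1
    funext j
    split_ifs with h
    · congr 1
      exact (Fin.ext h).symm
    · rfl
  have hle : I ^ 2 ≤ I := Ideal.pow_le_self two_ne_zero
  have hPd : dis a ∈ I := hle hdis
  have hD' : (derivative (Dy a)).eval (a ⟨0, hg2⟩) ∉ I := by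
    intro h
    obtain ⟨p, q, -, -, hpq⟩ := exists_mul_add_mul_eq_C_resultant (Dy a) (derivative (Dy a))
      (m := 2 * g) (n := 2 * g - 1) hdeg ((natDegree_derivative_le _).trans (by omega))
      (Or.inl (by omega))
    apply hD2
    have h1 := congrArg (eval (a ⟨0, hg2⟩)) hpq
    rw [eval_add, eval_mul, eval_mul, eval_C, hDa] at h1
    show (Dy a).resultant (derivative (Dy a)) (2 * g) (2 * g - 1) ∈ I
    rw [← h1]
    exact I.add_mem (I.mul_mem_right _ hPd) (I.mul_mem_right _ h)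
  obtain ⟨c₀, hc0, hc1, hc2⟩ := exists_c I hg2 hn a (by rw [hDa]; exact hPd) hD'
  obtain ⟨s, hsI, hs⟩ := hensel I (derivative (pol a)) c₀ hc1 hc2
  have hcP : (pol a).eval (c₀ + s) ∈ I := by
    have h1 := sub_dvd_eval_sub (c₀ + s) c₀ (pol a)
    rw [add_sub_cancel_left] at h1
    have h2 : (pol a).eval (c₀ + s) - (pol a).eval c₀ ∈ I := Ideal.mem_of_dvd I h1 hsI
    have h3 := I.add_mem h2 hc0
    rwa [sub_add_cancel] at h3
  obtain ⟨U, V, hUV⟩ := bez hg2 a
  have hB := hUV (c₀ + s)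
  set c := c₀ + s with hc
  refine ⟨c, ?_, hle hs⟩
  have e0 := congrArg (eval (a ⟨0, hg2⟩)) hB
  have e1 := congrArg (eval (a ⟨0, hg2⟩)) (congrArg derivative hB)
  rw [hDa] at e0
  simp only [eval_add, eval_mul, eval_sub, eval_C, eval_X, derivative_add, derivative_mul,
    derivative_C, derivative_X, derivative_sub, zero_mul, zero_add, sub_zero, one_mul,
    sub_self, add_zero] at e0 e1
  -- `U` is a unit
  have hU : (U c).eval (a ⟨0, hg2⟩) ∉ I := by
    intro h
    apply hD'
    rw [← e1]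
    refine I.add_mem (I.add_mem h (I.mul_mem_right _ hcP)) ?_
    exact I.mul_mem_right _ (hle hs)
  have hdiv : (pol a).eval c * (U c).eval (a ⟨0, hg2⟩) ∈ I ^ 2 := by
    have h1 : (pol a).eval c * (U c).eval (a ⟨0, hg2⟩) =
        dis a - (derivative (pol a)).eval c * (V c).eval (a ⟨0, hg2⟩) := by
      rw [← e0]; ring
    rw [h1]
    exact (I ^ 2).sub_mem hdis (Ideal.mul_mem_right _ _ hs)
  exact cancel I hdiv hU

end

open Pool.Agent.N352.PF in
theorem wk : S_WK := by
  intro F _ _ g v hg hfac a hdis hD2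
  have hfin : Finite (NumberField.RingOfIntegers F ⧸ v.asIdeal) :=
    v.asIdeal.finiteQuotientOfFreeOfNeBot v.ne_bot
  have hmax : v.asIdeal.IsMaximal := v.isMaximal
  have hn : ((2 * g + 1 : ℕ) : NumberField.RingOfIntegers F) ∉ v.asIdeal := by
    intro h
    apply hfac
    obtain ⟨t, ht⟩ := Nat.dvd_factorial (show 0 < 2 * g + 1 by omega) (le_refl (2 * g + 1))
    rw [ht, Nat.cast_mul]
    exact v.asIdeal.mul_mem_right _ h
  exact main v.asIdeal hg hn a hdis hD2

end Pool.Agent.N935.PF.WK
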