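import Pool.Agent.N935.PF.TRPa
import Pool.Agent.N446.M4.Sym

/-!
# Transfer and isometry at the primes over `p`

Part TRP of project PF of helper783, written by helper935.
-/

set_option autoImplicit false

open Matrix Module NumberField IsDedekindDomain WithZero

namespace Pool.Agent.N935.PF.TRP

open Pool.Agent.N783.PF (Tf Apx HV S_HVG S_HVC S_TRP)

section

variable {F : Type} [Field F] [NumberField F]

lemma int_mult (z : F) : ∃ N : ℕ, N ≠ 0 ∧ ∃ t : 𝓞 F, algebraMap (𝓞 F) F t = (N : F) * z := by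
  obtain ⟨a, b, hb, rfl⟩ := IsFractionRing.div_surjective (A := 𝓞 F) z
  have hb0 : b ≠ 0 := nonZeroDivisors.ne_zero hb
  have hbF : algebraMap (𝓞 F) F b ≠ 0 := by
    rw [Ne, FaithfulSMul.algebraMap_eq_zero_iff]
    exact hb0
  refine ⟨Ideal.absNorm (Ideal.span {b}), ?_, ?_⟩
  · rw [Ne, Ideal.absNorm_eq_zero_iff, Ideal.span_singleton_eq_bot]
    exact hb0
  · obtain ⟨c, hc⟩ := Ideal.mem_span_singleton.1 (Ideal.absNorm_mem (Ideal.span {b}))
    refine ⟨c * a, ?_⟩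
    have h1 : ((Ideal.absNorm (Ideal.span {b}) : ℕ) : F) =
        algebraMap (𝓞 F) F b * algebraMap (𝓞 F) F c := by
      rw [← map_mul, ← hc, map_natCast]
    rw [h1, map_mul]
    field_simp

lemma trace_int (p : ℕ) [Fact p.Prime] (z : F)
    (hz : ∀ w : HeightOneSpectrum (𝓞 F), (p : 𝓞 F) ∈ w.asIdeal → w.valuation F z ≤ 1) :
    ‖((Algebra.trace ℚ F z : ℚ) : ℚ_[p])‖ ≤ 1 := by
  obtain ⟨N, hN, t, ht⟩ := int_mult z
  obtain ⟨e, N', hpN, rfl⟩ := Nat.exists_eq_pow_mul_and_not_dvd hN p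
    (Fact.out : p.Prime).one_lt.ne'
  have hint : ∀ w : HeightOneSpectrum (𝓞 F), w.valuation F ((N' : F) * z) ≤ 1 := by
    intro w
    by_cases hw : (p : 𝓞 F) ∈ w.asIdeal
    · rw [map_mul]
      have h1 : w.valuation F (N' : F) ≤ 1 := by
        have := w.valuation_le_one (K := F) (N' : 𝓞 F)
        simpa using this
      exact mul_le_one' h1 (hz w hw)
    · have h1 : w.valuation F (p : F) = 1 := by
        have := (HeightOneSpectrum.valuation_eq_one_iff_notMem (v := w) (K := F)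
          (r := (p : 𝓞 F))).2 hw
        rwa [map_natCast] at this
      have h2 : w.valuation F (((p ^ e * N' : ℕ) : F) * z) ≤ 1 := by
        rw [← ht]
        exact w.valuation_le_one t
      rw [Nat.cast_mul, Nat.cast_pow, mul_assoc, map_mul, map_pow, h1, one_pow, one_mul] at h2
      exact h2
  obtain ⟨s, hs⟩ := HeightOneSpectrum.mem_integers_of_valuation_le_one F _ hint
  have h3 : IsIntegral ℤ ((N' : ℚ) * Algebra.trace ℚ F z) := by
    have h4 : (N' : ℚ) * Algebra.trace ℚ F z = Algebra.trace ℚ F (algebraMap (𝓞 F) F s) := by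
      rw [hs, ← nsmul_eq_mul, ← nsmul_eq_mul, map_nsmul]
    rw [h4]
    exact Algebra.isIntegral_trace (RingOfIntegers.isIntegral_coe s)
  obtain ⟨y, hy⟩ := IsIntegrallyClosed.isIntegral_iff.1 h3
  have h5 : (N' : ℚ_[p]) * ((Algebra.trace ℚ F z : ℚ) : ℚ_[p]) = ((y : ℤ) : ℚ_[p]) := by
    have := congrArg (fun r : ℚ => (r : ℚ_[p])) hy
    simp only [eq_intCast] at this
    push_cast at this
    exact this.symm
  have h6 : ‖(N' : ℚ_[p])‖ = 1 := by
    rw [Padic.norm_natCast_eq_one_iff]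
    exact ((Fact.out : p.Prime).coprime_iff_not_dvd).2 hpN
  have h7 := congrArg norm h5
  rw [norm_mul, h6, one_mul] at h7
  rw [h7]
  exact Padic.norm_int_le_one y

lemma trace_small (p : ℕ) [Fact p.Prime] (n : ℕ) (z : F)
    (hz : ∀ w : HeightOneSpectrum (𝓞 F), (p : 𝓞 F) ∈ w.asIdeal →
      w.valuation F z ≤ w.valuation F (p : F) ^ n) :
    ‖((Algebra.trace ℚ F z : ℚ) : ℚ_[p])‖ ≤ (p : ℝ) ^ (-(n : ℤ)) := by
  have hp0 : (p : F) ≠ 0 := by
    rw [Nat.cast_ne_zero]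
    exact (Fact.out : p.Prime).ne_zero
  have h1 : z = (p : F) ^ n * (z / (p : F) ^ n) := by field_simp
  have h2 := trace_int p (z / (p : F) ^ n) (by
    intro w hw
    rw [map_div₀, map_pow]
    exact div_le_one_of_le₀ (hz w hw) zero_le)
  have h3 : Algebra.trace ℚ F z = (p : ℚ) ^ n * Algebra.trace ℚ F (z / (p : F) ^ n) := by
    conv_lhs => rw [h1]
    have h4 : (p : F) ^ n * (z / (p : F) ^ n) = ((p : ℚ) ^ n) • (z / (p : F) ^ n) := by
      rw [Algebra.smul_def, map_pow, map_natCast]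
    rw [h4, map_smul, smul_eq_mul]
  rw [h3]
  push_cast
  rw [norm_mul, Padic.norm_p_pow]
  have h5 : (0 : ℝ) ≤ (p : ℝ) ^ (-(n : ℤ)) := by positivity
  exact mul_le_of_le_one_right h5 h2

lemma fin_W (p : ℕ) (hp : p ≠ 0) :
    {w : HeightOneSpectrum (𝓞 F) | (p : 𝓞 F) ∈ w.asIdeal}.Finite := by
  have h := Ideal.finite_factors (R := 𝓞 F) (I := Ideal.span {(p : 𝓞 F)}) (by
    rw [Ne, Submodule.zero_eq_bot, Ideal.span_singleton_eq_bot]
    exact_mod_cast hp)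
  refine h.subset fun w hw => ?_
  rw [Set.mem_setOf_eq] at hw ⊢
  exact Ideal.dvd_span_singleton.2 hw

lemma bd (w : HeightOneSpectrum (𝓞 F)) (x : F) : ∃ c : ℕ, w.valuation F x ≤ exp (c : ℤ) := by
  by_cases hx : w.valuation F x = 0
  · exact ⟨0, by rw [hx]; exact zero_le⟩
  · refine ⟨(log (w.valuation F x)).toNat, ?_⟩
    conv_lhs => rw [← exp_log hx]
    rw [exp_le_exp]
    exact Int.self_le_toNat _

lemma bd' (w : HeightOneSpectrum (𝓞 F)) (x : F) (hx : x ≠ 0) :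
    ∃ c : ℕ, exp (-(c : ℤ)) ≤ w.valuation F x := by
  have hx' : w.valuation F x ≠ 0 := (Valuation.ne_zero_iff _).2 hx
  refine ⟨(-log (w.valuation F x)).toNat, ?_⟩
  conv_rhs => rw [← exp_log hx']
  rw [exp_le_exp]
  have := Int.self_le_toNat (-log (w.valuation F x))
  omega

lemma bd_all {σ : Type} [Fintype σ] (W : Finset (HeightOneSpectrum (𝓞 F)))
    (x : HeightOneSpectrum (𝓞 F) → σ → F) :
    ∃ c : ℕ, ∀ w ∈ W, ∀ s, w.valuation F (x w s) ≤ exp (c : ℤ) := by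
  choose c hc using fun (w : HeightOneSpectrum (𝓞 F)) (s : σ) => bd w (x w s)
  refine ⟨∑ w ∈ W, ∑ s, c w s, fun w hw s => (hc w s).trans ?_⟩
  rw [exp_le_exp]
  have h1 : c w s ≤ ∑ s, c w s := Finset.single_le_sum (f := fun s => c w s)
    (fun _ _ => Nat.zero_le _) (Finset.mem_univ s)
  have h2 : ∑ s, c w s ≤ ∑ w ∈ W, ∑ s, c w s := Finset.single_le_sum (f := fun w => ∑ s, c w s)
    (fun _ _ => Nat.zero_le _) hw
  exact_mod_cast h1.trans h2

/-- weak approximation -/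
lemma wa (W : Finset (HeightOneSpectrum (𝓞 F))) (x : HeightOneSpectrum (𝓞 F) → F) (n : ℕ) :
    ∃ y : F, ∀ w ∈ W, w.valuation F (y - x w) ≤ exp (-(n : ℤ)) := by
  obtain ⟨D, hD⟩ := IsLocalization.exist_integer_multiples (nonZeroDivisors (𝓞 F)) W x
  choose! a ha using hD
  have hD0 : (D : 𝓞 F) ≠ 0 := nonZeroDivisors.ne_zero D.2
  have hDF : algebraMap (𝓞 F) F D ≠ 0 := by
    rw [Ne, FaithfulSMul.algebraMap_eq_zero_iff]
    exact hD0
  choose e he using fun w : HeightOneSpectrum (𝓞 F) => bd' w (algebraMap (𝓞 F) F D) hDF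
  obtain ⟨y₀, hy₀⟩ := IsDedekindDomain.exists_forall_sub_mem_ideal (s := W)
    (fun w => w.asIdeal) (fun w => e w + n) (fun w _ => w.prime)
    (fun w _ w' _ h h' => h (HeightOneSpectrum.ext h')) (fun w => a w)
  refine ⟨algebraMap (𝓞 F) F y₀ / algebraMap (𝓞 F) F D, fun w hw => ?_⟩
  have h1 : algebraMap (𝓞 F) F y₀ / algebraMap (𝓞 F) F D - x w =
      algebraMap (𝓞 F) F (y₀ - a w) / algebraMap (𝓞 F) F D := by
    have h2 := ha w hw
    have h3 : algebraMap (𝓞 F) F (a w) = algebraMap (𝓞 F) F D * x w := by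
      rw [h2, Algebra.smul_def]
    rw [map_sub, h3]
    field_simp
  have hpos : 0 < w.valuation F (algebraMap (𝓞 F) F D) :=
    zero_lt_iff.2 ((Valuation.ne_zero_iff _).2 hDF)
  rw [h1, map_div₀, div_le_iff₀ hpos]
  calc w.valuation F (algebraMap (𝓞 F) F (y₀ - a w)) ≤ exp (-((e w + n : ℕ) : ℤ)) := by
        rw [HeightOneSpectrum.valuation_of_algebraMap]
        exact (w.intValuation_le_pow_iff_mem _ _).2 (hy₀ w hw)
    _ = exp (-(n : ℤ)) * exp (-(e w : ℤ)) := by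
        rw [← exp_add]
        congr 1
        push_cast
        ring
    _ ≤ _ := mul_le_mul_right (he w) _

lemma approx {ι : Type} [Fintype ι] (A B : Matrix ι ι F) (W : Finset (HeightOneSpectrum (𝓞 F)))
    (h : ∀ w ∈ W, Apx w A B) (m : ℕ) : ∃ T : Matrix ι ι F, ∀ w ∈ W, ∀ i j,
      w.valuation F ((T * A * Tᵀ) i j - B i j) ≤ exp (-(m : ℤ)) := by
  choose! T hT using fun (w : HeightOneSpectrum (𝓞 F)) (hw : w ∈ W) => h w hw m
  obtain ⟨c₁, hc₁⟩ := bd_all (σ := ι × ι) W (fun w s => T w s.1 s.2)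
  obtain ⟨c₂, hc₂⟩ := bd_all (σ := ι × ι) W (fun _ s => A s.1 s.2)
  set C : ℕ := c₁ + c₂ with hC
  have hTC : ∀ w ∈ W, ∀ i j, w.valuation F (T w i j) ≤ exp (C : ℤ) := fun w hw i j =>
    (hc₁ w hw (i, j)).trans (by rw [exp_le_exp, hC]; push_cast; omega)
  have hAC : ∀ w ∈ W, ∀ i j, w.valuation F (A i j) ≤ exp (C : ℤ) := fun w hw i j =>
    (hc₂ w hw (i, j)).trans (by rw [exp_le_exp, hC]; push_cast; omega)
  choose U hU using fun i j => wa W (fun w => T w i j) (m + 2 * C)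
  have hUC : ∀ w ∈ W, ∀ i j, w.valuation F (U i j) ≤ exp (C : ℤ) := by
    intro w hw i j
    have h1 : U i j = (U i j - T w i j) + T w i j := by ring
    rw [h1]
    refine (Valuation.map_add _ _ _).trans (max_le ((hU i j w hw).trans ?_) (hTC w hw i j))
    rw [exp_le_exp]
    omega
  refine ⟨Matrix.of U, fun w hw i j => ?_⟩
  have h2 : (Matrix.of U * A * (Matrix.of U)ᵀ) i j - B i j =
      (∑ c, ∑ a, ((U i a - T w i a) * A a c * U j c + T w i a * A a c * (U j c - T w j c))) +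
        ((T w * A * (T w)ᵀ) i j - B i j) := by
    have h3 : (Matrix.of U * A * (Matrix.of U)ᵀ) i j = ∑ c, ∑ a, U i a * A a c * U j c := by
      simp only [Matrix.mul_apply, Matrix.transpose_apply, Matrix.of_apply, Finset.sum_mul]
    have h4 : (T w * A * (T w)ᵀ) i j = ∑ c, ∑ a, T w i a * A a c * T w j c := by
      simp only [Matrix.mul_apply, Matrix.transpose_apply, Finset.sum_mul]
    rw [h3, h4, add_sub, sub_left_inj, ← Finset.sum_add_distrib]
    refine Finset.sum_congr rfl fun c _ => ?_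
    rw [← Finset.sum_add_distrib]
    refine Finset.sum_congr rfl fun a _ => ?_
    ring
  rw [h2]
  refine (Valuation.map_add _ _ _).trans (max_le ?_ (hT w hw i j))
  refine Valuation.map_sum_le _ fun c _ => Valuation.map_sum_le _ fun a _ => ?_
  have e1 : exp (-(m : ℤ)) = exp (-((m + 2 * C : ℕ) : ℤ)) * exp (C : ℤ) * exp (C : ℤ) := by
    rw [← exp_add, ← exp_add]
    congr 1
    push_cast
    ring
  have e2 : exp (-(m : ℤ)) = exp (C : ℤ) * exp (C : ℤ) * exp (-((m + 2 * C : ℕ) : ℤ)) := by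
    rw [← exp_add, ← exp_add]
    congr 1
    push_cast
    ring
  refine (Valuation.map_add _ _ _).trans (max_le ?_ ?_)
  · rw [map_mul, map_mul, e1]
    exact mul_le_mul' (mul_le_mul' (hU i a w hw) (hAC w hw a c)) (hUC w hw j c)
  · rw [map_mul, map_mul, e2]
    exact mul_le_mul' (mul_le_mul' (hTC w hw i a) (hAC w hw a c)) (hU j c w hw)

/-- closeness of the transfers -/
lemma near {ι : Type} [Fintype ι] (p : ℕ) [Fact p.Prime] (A B : Matrix ι ι F)
    (h : ∀ w : HeightOneSpectrum (𝓞 F), (p : 𝓞 F) ∈ w.asIdeal → Apx w A B) (n : ℕ) :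
    ∃ T : Matrix ι ι F, ∀ s t,
      ‖((Tf (T * A * Tᵀ) s t - Tf B s t : ℚ) : ℚ_[p])‖ ≤ (p : ℝ) ^ (-(n : ℤ)) := by
  have hp := (Fact.out : p.Prime)
  set W : Finset (HeightOneSpectrum (𝓞 F)) := (fin_W (F := F) p hp.ne_zero).toFinset with hW
  have hWm : ∀ w, w ∈ W ↔ (p : 𝓞 F) ∈ w.asIdeal := fun w => by
    rw [hW, Set.Finite.mem_toFinset]
    rfl
  obtain ⟨c, hc⟩ := bd_all (σ := Fin (finrank ℚ F) × Fin (finrank ℚ F)) W
    (fun _ s => finBasis ℚ F s.1 * finBasis ℚ F s.2)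
  obtain ⟨e, he⟩ : ∃ e : ℕ, ∀ w ∈ W, exp (-(e : ℤ)) ≤ w.valuation F (p : F) := by
    have hp0 : (p : F) ≠ 0 := by
      rw [Nat.cast_ne_zero]
      exact hp.ne_zero
    choose e he using fun w : HeightOneSpectrum (𝓞 F) => bd' w (p : F) hp0
    refine ⟨∑ w ∈ W, e w, fun w hw => le_trans ?_ (he w)⟩
    rw [exp_le_exp]
    have : e w ≤ ∑ w ∈ W, e w := Finset.single_le_sum (f := fun w => e w)
      (fun _ _ => Nat.zero_le _) hw
    omega
  obtain ⟨T, hT⟩ := approx A B W (fun w hw => h w ((hWm w).1 hw)) (c + e * n)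
  refine ⟨T, fun s t => ?_⟩
  rw [Tf_sub]
  refine trace_small p n _ fun w hw => ?_
  have hwW := (hWm w).2 hw
  rw [map_mul]
  calc _ ≤ exp (c : ℤ) * exp (-((c + e * n : ℕ) : ℤ)) :=
        mul_le_mul' (hc w hwW (s.2, t.2)) (hT w hwW s.1 t.1)
    _ = exp (-(e : ℤ)) ^ n := by
        rw [← WithZero.exp_nsmul, ← exp_add]
        congr 1
        push_cast
        rw [nsmul_eq_mul]
        ring
    _ ≤ _ := pow_le_pow_left₀ zero_le (he w hwW) n

end

lemma det_near (p : ℕ) [Fact p.Prime] (n : Type) [Fintype n] [DecidableEq n]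
    (M : Matrix n n ℚ_[p]) (hM : M.det ≠ 0) :
    ∃ k : ℕ, ∀ M' : Matrix n n ℚ_[p], (∀ i j, ‖M' i j - M i j‖ ≤ (p : ℝ) ^ (-(k : ℤ))) →
      M'.det ≠ 0 := by
  have hc : Continuous fun N : n → n → ℚ_[p] => (Matrix.of N).det :=
    Continuous.matrix_det (A := fun N : n → n → ℚ_[p] => Matrix.of N) continuous_id
  have ho : IsOpen {N : n → n → ℚ_[p] | (Matrix.of N).det ≠ 0} :=
    isOpen_ne_fun hc continuous_const
  obtain ⟨δ, hδ, hball⟩ := Metric.isOpen_iff.1 ho M hM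
  have hp1 : (p : ℝ)⁻¹ < 1 := inv_lt_one_of_one_lt₀ (by exact_mod_cast (Fact.out : p.Prime).one_lt)
  obtain ⟨k, hk⟩ := exists_pow_lt_of_lt_one hδ hp1
  refine ⟨k, fun M' h => ?_⟩
  have : (M' : n → n → ℚ_[p]) ∈ {N : n → n → ℚ_[p] | (Matrix.of N).det ≠ 0} := by
    apply hball
    rw [Metric.mem_ball, dist_pi_lt_iff hδ]
    intro i
    rw [dist_pi_lt_iff hδ]
    intro j
    rw [dist_eq_norm]
    refine lt_of_le_of_lt (h i j) ?_
    rw [_root_.zpow_neg, _root_.zpow_natCast, ← inv_pow]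
    exact hk
  exact this

/-- **PF/TRP** -/
theorem trp (h1 : S_HVG) (h2 : S_HVC) : S_TRP := by
  intro F _ _ p _ ι _ A B hA hB hAd hBd hApx ε hε
  letI : DecidableEq ι := fun a b => Classical.propDecidable (a = b)
  letI : DecidableEq (ι × Fin (finrank ℚ F)) := fun a b => Classical.propDecidable (a = b)
  have hsym := Pool.Agent.N446.M4.sym_ p
  have hmapd : ∀ N : Matrix (ι × Fin (finrank ℚ F)) (ι × Fin (finrank ℚ F)) ℚ,
      (N.map (Rat.castHom ℚ_[p])).det = ((N.det : ℚ) : ℚ_[p]) := by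
    intro N
    have := RingHom.map_det (Rat.castHom ℚ_[p]) N
    rw [RingHom.mapMatrix_apply] at this
    exact this.symm
  have hmaps : ∀ N : Matrix (ι × Fin (finrank ℚ F)) (ι × Fin (finrank ℚ F)) ℚ, N.IsSymm →
      (N.map (Rat.castHom ℚ_[p])).IsSymm := fun N hN => hN.map _
  have hMd : ((Tf B).map (Rat.castHom ℚ_[p])).det ≠ 0 := by
    rw [hmapd, Rat.cast_ne_zero]
    exact Tf_det B hBd
  have hAd' : ((Tf A).map (Rat.castHom ℚ_[p])).det ≠ 0 := by
    rw [hmapd, Rat.cast_ne_zero]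
    exact Tf_det A hAd
  obtain ⟨⟨ε', -, hε'⟩, -, -⟩ := h1 ℚ_[p] hsym _ ((Tf B).map (Rat.castHom ℚ_[p]))
    (hmaps _ (Tf_symm B hB)) hMd
  obtain ⟨k₀, hk₀⟩ := h2 p _ (Tf B) (Tf_symm B hB) (Tf_det B hBd)
  obtain ⟨k₁, hk₁⟩ := det_near p _ ((Tf B).map (Rat.castHom ℚ_[p])) hMd
  obtain ⟨T, hT⟩ := near p A B hApx (k₀ + k₁)
  have hp1 : (1 : ℝ) ≤ (p : ℝ) := by exact_mod_cast (Fact.out : p.Prime).one_lt.le
  have hT0 : ∀ s t, ‖((Tf (T * A * Tᵀ) s t - Tf B s t : ℚ) : ℚ_[p])‖ ≤ (p : ℝ) ^ (-(k₀ : ℤ)) :=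
    fun s t => (hT s t).trans (zpow_le_zpow_right₀ hp1 (by push_cast; omega))
  have hT1 : ∀ s t, ‖((Tf (T * A * Tᵀ) s t - Tf B s t : ℚ) : ℚ_[p])‖ ≤ (p : ℝ) ^ (-(k₁ : ℤ)) :=
    fun s t => (hT s t).trans (zpow_le_zpow_right₀ hp1 (by push_cast; omega))
  have hTA : (T * A * Tᵀ).IsSymm := by
    unfold Matrix.IsSymm
    rw [Matrix.transpose_mul, Matrix.transpose_mul, Matrix.transpose_transpose, hA.eq,
      Matrix.mul_assoc]
  have hM'd : ((Tf (T * A * Tᵀ)).map (Rat.castHom ℚ_[p])).det ≠ 0 := by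
    refine hk₁ _ fun s t => ?_
    have := hT1 s t
    push_cast at this
    exact this
  have hM'ε' : HV ((Tf (T * A * Tᵀ)).map (Rat.castHom ℚ_[p])) ε' :=
    hk₀ _ (Tf_symm _ hTA) hT0 ε' hε'
  have e : (Tf (T * A * Tᵀ)).map (Rat.castHom ℚ_[p]) =
      (Ts T).map (Rat.castHom ℚ_[p]) * (Tf A).map (Rat.castHom ℚ_[p]) *
        ((Ts T).map (Rat.castHom ℚ_[p]))ᵀ := by
    rw [Tf_subst, Matrix.map_mul, Matrix.map_mul, Matrix.transpose_map]
  have hTd : ((Ts T).map (Rat.castHom ℚ_[p])).det ≠ 0 := by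
    intro h0
    apply hM'd
    rw [e, Matrix.det_mul, Matrix.det_mul, h0, zero_mul, zero_mul]
  have hM'ε : HV ((Tf (T * A * Tᵀ)).map (Rat.castHom ℚ_[p])) ε := by
    rw [e]
    exact (h1 ℚ_[p] hsym _ ((Tf A).map (Rat.castHom ℚ_[p])) (hmaps _ (Tf_symm A hA))
      hAd').2.2 _ ε hTd hε
  have hee : ε = ε' := (h1 ℚ_[p] hsym _ _ (hmaps _ (Tf_symm _ hTA)) hM'd).2.1 ε ε' hM'ε hM'ε'
  rw [hee]
  exact hε'

end Pool.Agent.N935.PF.TRP
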