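import Pool.Agent.N783.PF.Loc

/-!
# Transfer of forms to the rational numbers (algebra)

Part TRP of project PF of helper783, written by helper935.
-/

set_option autoImplicit false

open Matrix Module

namespace Pool.Agent.N935.PF.TRP

open Pool.Agent.N783.PF (Tf)

variable {F : Type} [Field F] [NumberField F]

/-- the substitution -/
noncomputable def Ts {ι : Type} (T : Matrix ι ι F) :
    Matrix (ι × Fin (finrank ℚ F)) (ι × Fin (finrank ℚ F)) ℚ :=
  Matrix.of fun p q => (finBasis ℚ F).repr (finBasis ℚ F p.2 * T p.1 q.1) q.2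

lemma key (x y z : F) : ∑ n, (∑ m, (finBasis ℚ F).repr x m *
    Algebra.trace ℚ F (finBasis ℚ F m * finBasis ℚ F n * z)) * (finBasis ℚ F).repr y n =
      Algebra.trace ℚ F (x * y * z) := by
  have h1 : ∀ n, ∑ m, (finBasis ℚ F).repr x m *
      Algebra.trace ℚ F (finBasis ℚ F m * finBasis ℚ F n * z) =
        Algebra.trace ℚ F (x * finBasis ℚ F n * z) := by
    intro n
    conv_rhs => rw [← (finBasis ℚ F).sum_repr x, Finset.sum_mul, Finset.sum_mul, map_sum]
    refine Finset.sum_congr rfl fun m _ => ?_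
    rw [smul_mul_assoc, smul_mul_assoc, map_smul, smul_eq_mul]
  simp only [h1]
  conv_rhs => rw [← (finBasis ℚ F).sum_repr y, Finset.mul_sum, Finset.sum_mul, map_sum]
  refine Finset.sum_congr rfl fun n _ => ?_
  rw [mul_smul_comm, smul_mul_assoc, map_smul, smul_eq_mul, mul_comm]

lemma Tf_subst {ι : Type} [Fintype ι] (T A : Matrix ι ι F) :
    Tf (T * A * Tᵀ) = Ts T * Tf A * (Ts T)ᵀ := by
  ext ⟨i, k⟩ ⟨j, l⟩
  simp only [Matrix.mul_apply, Matrix.transpose_apply, Ts, Tf, Matrix.of_apply,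
    Fintype.sum_prod_type, Finset.sum_mul, Finset.mul_sum, map_sum]
  refine Finset.sum_congr rfl fun c _ => ?_
  rw [Finset.sum_comm]
  refine Finset.sum_congr rfl fun a _ => ?_
  have h := key (finBasis ℚ F k * T i a) (finBasis ℚ F l * T j c) (A a c)
  simp only [Finset.sum_mul] at h
  rw [h]
  congr 1
  ring

lemma Tf_sub {ι : Type} [Fintype ι] (A B : Matrix ι ι F) (p q : ι × Fin (finrank ℚ F)) :
    Tf A p q - Tf B p q = Algebra.trace ℚ F
      (finBasis ℚ F p.2 * finBasis ℚ F q.2 * (A p.1 q.1 - B p.1 q.1)) := by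
  simp only [Tf, Matrix.of_apply]
  rw [← map_sub, mul_sub]

lemma Tf_symm {ι : Type} [Fintype ι] (A : Matrix ι ι F) (hA : A.IsSymm) : (Tf A).IsSymm := by
  ext p q
  simp only [Tf, Matrix.of_apply, Matrix.transpose_apply]
  rw [hA.apply q.1 p.1, mul_comm (finBasis ℚ F q.2)]

lemma trace_nd (x : F) (h : ∀ k, Algebra.trace ℚ F (finBasis ℚ F k * x) = 0) : x = 0 := by
  have hnd := traceForm_nondegenerate ℚ F
  have h2 : ∀ y, Algebra.trace ℚ F (y * x) = 0 := by
    intro y
    conv_lhs => rw [← (finBasis ℚ F).sum_repr y, Finset.sum_mul, map_sum]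
    refine Finset.sum_eq_zero fun m _ => ?_
    rw [smul_mul_assoc, map_smul, h m, smul_zero]
  refine hnd.2 x ?_
  intro y
  rw [Algebra.traceForm_apply]
  exact h2 y

lemma Tf_det {ι : Type} [Fintype ι] [DecidableEq ι] [DecidableEq (ι × Fin (finrank ℚ F))]
    (B : Matrix ι ι F) (hB : B.det ≠ 0) : (Tf B).det ≠ 0 := by
  intro h
  obtain ⟨v, hv, hv0⟩ := Matrix.exists_mulVec_eq_zero_iff.2 h
  set y : ι → F := fun j => ∑ l, v (j, l) • finBasis ℚ F l with hy
  have h1 : B *ᵥ y = 0 := by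
    funext i
    refine trace_nd _ fun k => ?_
    have h2 := congrFun hv0 (i, k)
    simp only [Matrix.mulVec, dotProduct, Tf, Matrix.of_apply, Fintype.sum_prod_type,
      Pi.zero_apply] at h2
    simp only [Matrix.mulVec, dotProduct, hy, Finset.mul_sum, map_sum]
    rw [← h2]
    refine Finset.sum_congr rfl fun j _ => Finset.sum_congr rfl fun l _ => ?_
    rw [mul_smul_comm, mul_smul_comm, map_smul, smul_eq_mul, mul_comm (v (j, l))]
    congr 2
    ring
  have h3 : y = 0 := Matrix.eq_zero_of_mulVec_eq_zero hB h1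
  apply hv
  funext ⟨j, l⟩
  have h4 := congrFun h3 j
  simp only [hy, Pi.zero_apply] at h4
  exact Fintype.linearIndependent_iff.1 (finBasis ℚ F).linearIndependent (fun l => v (j, l)) h4 l

end Pool.Agent.N935.PF.TRP
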